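import Pool.Agent.H93.HQ.Targets

/-!
# HQ board, row CAP: the capacity inequality for bands
-/

namespace Pool.Agent.H1.HQ
open MeasureTheory Set Filter Topology Pool.Agent.H80.HS Pool.Agent.H93.HQ
open scoped ContDiff ENNReal

theorem pf_CAP (h1 : U_BT) (h2 : U_WK) : U_CAP := by
  intro n hn F _ _ u p B a b hu hc hp hpQ hB ha hab
  have hb : 0 < b := ha.trans_lt hab
  have hcl : IsClosed {x : H n | b ≤ ‖u x‖} := isClosed_le continuous_const hu.continuous.norm
  have hsub : {x : H n | b ≤ ‖u x‖} ⊆ tsupport u := by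
    intro x hx
    apply subset_tsupport
    rw [Function.mem_support]
    intro h0
    have hx' : b ≤ ‖u x‖ := hx
    rw [h0, norm_zero] at hx'
    linarith
  have hcomp : IsCompact {x : H n | b ≤ ‖u x‖} := IsCompact.of_isClosed_subset hc hcl hsub
  exact h2 n hn p B (b - a) (bd u a b) {x : H n | b ≤ ‖u x‖} hp hpQ hB (sub_pos.2 hab)
    (measurable_bd hu a b) hcl.measurableSet hcomp.measure_lt_top.ne
    fun y hy => h1 n hn F u p a b hu hc hp.le ha hab y hy

end Pool.Agent.H1.HQ
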